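import Pool.Agent.Helper61.QE.St1

/-!
# Module UNF of PART E: the unfolding inequality
-/

open MeasureTheory Set Filter Topology Complex
open scoped ContDiff ComplexConjugate ENNReal

namespace Pool.Agent.Helper34.QE

open Pool.Agent.Helper68.QC Pool.Agent.Helper61.QE

lemma dKern_inv (Φ : ℂ → ℂ) {a b Ma Mb da db ea eb : ℂ} (hda : da ≠ 0) (hdb : db ≠ 0)
    (hea : ea ≠ 0) (heb : eb ≠ 0) (h1 : Ma - Mb = (a - b) / (da * db))
    (h2 : Φ Ma - Φ Mb = (Φ a - Φ b) / (ea * eb))
    (h3 : deriv Φ Ma * (da ^ 2)⁻¹ = (ea ^ 2)⁻¹ * deriv Φ a)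
    (h4 : deriv Φ Mb * (db ^ 2)⁻¹ = (eb ^ 2)⁻¹ * deriv Φ b) :
    dKern Φ Ma Mb = dKern Φ a b * (da ^ 2 * db ^ 2) := by
  have h3' : deriv Φ Ma = da ^ 2 * (ea ^ 2)⁻¹ * deriv Φ a := by
    field_simp at h3 ⊢
    linear_combination h3
  have h4' : deriv Φ Mb = db ^ 2 * (eb ^ 2)⁻¹ * deriv Φ b := by
    field_simp at h4 ⊢
    linear_combination h4
  unfold dKern
  rw [h1, h2, h3', h4', sub_mul]
  congr 1
  · rcases eq_or_ne (Φ a - Φ b) 0 with h | h
    · rw [h]; simp
    · field_simp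
  · rcases eq_or_ne (a - b) 0 with h | h
    · rw [h]; simp
    · field_simp

lemma ofReal_inv {K' K : ℂ} {da db : ℂ} (hda : da ≠ 0) (hdb : db ≠ 0)
    (h : K' = K * (da ^ 2 * db ^ 2)) :
    ENNReal.ofReal (‖K'‖ ^ 2) * ENNReal.ofReal (‖da‖⁻¹ ^ 4) * ENNReal.ofReal (‖db‖⁻¹ ^ 4) =
      ENNReal.ofReal (‖K‖ ^ 2) := by
  rw [← ENNReal.ofReal_mul (by positivity), ← ENNReal.ofReal_mul (by positivity), h]
  congr 1
  rw [norm_mul, norm_mul, norm_pow, norm_pow]
  have h1 : ‖da‖ ≠ 0 := norm_ne_zero_iff.2 hda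
  have h2 : ‖db‖ ≠ 0 := norm_ne_zero_iff.2 hdb
  field_simp

lemma mob_measurable (A : SL) : Measurable (mob A) := by
  unfold mob den
  exact ((measurable_const.mul measurable_id).add measurable_const).div
    ((measurable_const.mul measurable_id).add measurable_const)

lemma den_measurable (A : SL) : Measurable (den A) := by
  unfold den
  exact (measurable_const.mul measurable_id).add measurable_const

lemma dKern_measurable (Φ : ℂ ≃ₜ ℂ) : Measurable fun x : ℂ × ℂ => dKern Φ x.1 x.2 := by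
  unfold dKern
  have h1 : Measurable (deriv (Φ : ℂ → ℂ)) := measurable_deriv _
  have h2 : Measurable (Φ : ℂ → ℂ) := Φ.continuous.measurable
  exact (((h1.comp measurable_fst).mul (h1.comp measurable_snd)).div
    (((h2.comp measurable_fst).sub (h2.comp measurable_snd)).pow_const 2)).sub
    (measurable_const.div ((measurable_fst.sub measurable_snd).pow_const 2))

theorem pUNF (hSUB : Pool.Agent.Helper61.QE.StSUB) (hINT : Pool.Agent.Helper61.QE.StINT)
    (hFUX : Pool.Agent.Helper61.QE.StFUX) (hMBF : Pool.Agent.Helper61.QE.StMBF)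
    (hENT : Pool.Agent.Helper61.QE.StENT) (hIND : Pool.Agent.Helper61.QE.StIND) :
    Pool.Agent.Helper61.QE.StUNF := by
  intro Γ _ s F G Φ R R' hs hF hG hR hR' hΦ hΦ' δ hδ hNd m
  classical
  obtain ⟨hS1, hS2, hS3, -⟩ := hSUB
  obtain ⟨hI1, hI2, hI3⟩ := hIND Γ s F G R hs hF hR
  obtain ⟨hcnt, -, ρ0, -, hfux⟩ := hFUX Γ s hs
  have hΩo : IsOpen (G '' D) := G.isOpenMap _ Metric.isOpen_ball
  have hΩm : MeasurableSet (G '' D) := hΩo.measurableSet
  have hFD : F ⊆ D := by
    obtain ⟨r, hr, h⟩ := hF.cpt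
    intro z hz
    rw [mem_ball_zero_iff]
    exact (h z hz).trans_lt hr
  have hGF : G '' F ⊆ G '' D := image_mono hFD
  have hFm : MeasurableSet (G '' F) := G.measurableEmbedding.measurableSet_image.2 hF.meas
  -- invariance of the kernel
  have hkinv : ∀ γ, ∀ a ∈ G '' D, ∀ b ∈ G '' D,
      ENNReal.ofReal (‖dKern Φ (mob (R γ) a) (mob (R γ) b)‖ ^ 2) *
        ENNReal.ofReal (‖den (R γ) a‖⁻¹ ^ 4) * ENNReal.ofReal (‖den (R γ) b‖⁻¹ ^ 4) =
      ENNReal.ofReal (‖dKern Φ a b‖ ^ 2) := by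
    intro γ
    have hI : Intw (R γ) (R' γ) Φ := hINT.2.2 _ _ _ G Φ (hR γ) (hR' γ)
    have hd : ∀ a ∈ G '' D, den (R γ) a ≠ 0 ∧ den (R' γ) (Φ a) ≠ 0 ∧
        Φ (mob (R γ) a) = mob (R' γ) (Φ a) ∧
        deriv Φ (mob (R γ) a) * (den (R γ) a ^ 2)⁻¹ =
          (den (R' γ) (Φ a) ^ 2)⁻¹ * deriv Φ a := by
      intro a ha
      have h1 := (hI1 γ a ha).1
      have h2 : den (R' γ) (Φ a) ≠ 0 := fun h => h1 ((hI.1 a).2 h)
      refine ⟨h1, h2, hI.2.1 a h1, ?_⟩
      have hΦa : HasDerivAt Φ (deriv Φ a) a :=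
        (hΦ.differentiableAt (hΩo.mem_nhds ha)).hasDerivAt
      have hΦm : HasDerivAt Φ (deriv Φ (mob (R γ) a)) (mob (R γ) a) :=
        (hΦ.differentiableAt (hΩo.mem_nhds (hI1 γ a ha).2.1)).hasDerivAt
      have e1 := hΦm.comp a (hS2 (R γ) a h1)
      have e2 := (hS2 (R' γ) (Φ a) h2).comp a hΦa
      have e3 : (Φ ∘ mob (R γ)) =ᶠ[𝓝 a] (mob (R' γ) ∘ Φ) := by
        filter_upwards [hΩo.mem_nhds ha] with x hx
        exact hI.2.1 x (hI1 γ x hx).1
      exact (e1.congr_of_eventuallyEq e3.symm).unique e2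
    intro a ha b hb
    obtain ⟨a1, a2, a3, a4⟩ := hd a ha
    obtain ⟨b1, b2, b3, b4⟩ := hd b hb
    refine ofReal_inv a1 b1 ?_
    refine dKern_inv Φ a1 b1 a2 b2 (hS3 _ _ _ a1 b1) ?_ a4 b4
    rw [a3, b3]
    exact hS3 _ _ _ a2 b2
  set Bs : Set (ℂ × ℂ) := {x : ℂ × ℂ | Nd R δ x.1 ≤ m ∧ Nd R δ x.2 ≤ m ∧ δ ≤ ‖x.1 - x.2‖}
    with hBs
  have hBm : MeasurableSet Bs := by
    refine MeasurableSet.inter ?_ (MeasurableSet.inter ?_ ?_)
    · exact measurableSet_le (hNd.comp measurable_fst) measurable_const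
    · exact measurableSet_le (hNd.comp measurable_snd) measurable_const
    · exact measurableSet_le measurable_const (measurable_fst.sub measurable_snd).norm
  have hkm : Measurable fun x : ℂ × ℂ => ENNReal.ofReal (‖dKern Φ x.1 x.2‖ ^ 2) :=
    ((dKern_measurable Φ).norm.pow_const 2).ennreal_ofReal
  have hKm : Measurable (Bs.indicator fun x : ℂ × ℂ => ENNReal.ofReal (‖dKern Φ x.1 x.2‖ ^ 2)) :=
    hkm.indicator hBm
  -- counting
  have hcount : ∀ a ∈ G '' D, ∀ b ∈ G '' D,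
      ∑' γ : Γ, (if (mob (R γ) a, mob (R γ) b) ∈ Bs then (1 : ℝ≥0∞) else 0) ≤ 2 * m + 1 := by
    intro a ha b hb
    by_cases hex : ∃ γ0, (mob (R γ0) a, mob (R γ0) b) ∈ Bs
    · obtain ⟨γ0, h0⟩ := hex
      obtain ⟨h01, h02, h03⟩ := h0
      simp only at h01 h02
      have ha' := (hI1 γ0 a ha).2.1
      have hb' := (hI1 γ0 b hb).2.1
      set a' := mob (R γ0) a with ha'd
      set b' := mob (R γ0) b with hb'd
      rw [← (Equiv.mulRight γ0).tsum_eq]
      calc ∑' γ : Γ, (if (mob (R (Equiv.mulRight γ0 γ)) a, mob (R (Equiv.mulRight γ0 γ)) b) ∈ Bs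
            then (1 : ℝ≥0∞) else 0)
          ≤ ∑' γ : Γ, ((if γ = 1 then (1 : ℝ≥0∞) else 0) +
            ((if γ ≠ 1 ∧ ‖a' - pl (R γ)‖ * (δ * ‖R γ 1 0‖ ^ 2) ≤ 2 then 1 else 0) +
             (if γ ≠ 1 ∧ ‖b' - pl (R γ)‖ * (δ * ‖R γ 1 0‖ ^ 2) ≤ 2 then 1 else 0))) := by
            refine ENNReal.tsum_le_tsum fun γ => ?_
            rw [Equiv.coe_mulRight]
            by_cases hγ : γ = 1
            · rw [if_pos hγ]
              refine le_trans ?_ le_self_add
              split_ifs <;> simp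
            · rw [if_neg hγ, zero_add]
              split_ifs with h1 h2 h3 h3 <;> try simp
              exfalso
              have e1 : mob (R (γ * γ0)) a = mob (R γ) a' := by
                rw [map_mul]
                exact (hS1 _ _ _ (hI1 γ0 a ha).1).2
              have e2 : mob (R (γ * γ0)) b = mob (R γ) b' := by
                rw [map_mul]
                exact (hS1 _ _ _ (hI1 γ0 b hb).1).2
              rw [e1, e2] at h1
              obtain ⟨-, -, h4⟩ := h1
              simp only at h4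
              obtain ⟨hf1, -⟩ := hfux γ hγ
              obtain ⟨C, hC, hent⟩ := hENT (s γ) (hs.su γ) hf1 1
              obtain ⟨-, hc1, -, -⟩ := hent G hG (R γ) (hR γ)
              have hc : R γ 1 0 ≠ 0 := by
                intro h
                rw [h, norm_zero] at hc1
                have : 0 < C⁻¹ := inv_pos.2 hC
                linarith
              obtain ⟨hm1, -, hm3, -⟩ := hMBF (R γ) hc
              have hap : a' ≠ pl (R γ) := by
                intro h
                have h5 := (hI1 γ a' ha').1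
                rw [hm1, ← h, sub_self, mul_zero] at h5
                exact h5 rfl
              have hbp : b' ≠ pl (R γ) := by
                intro h
                have h5 := (hI1 γ b' hb').1
                rw [hm1, ← h, sub_self, mul_zero] at h5
                exact h5 rfl
              have h6 := hm3 a' b' hap hbp
              have hA : 0 < ‖a' - pl (R γ)‖ := norm_pos_iff.2 (sub_ne_zero.2 hap)
              have hB : 0 < ‖b' - pl (R γ)‖ := norm_pos_iff.2 (sub_ne_zero.2 hbp)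
              have h7 : ‖a' - b'‖ ≤ ‖a' - pl (R γ)‖ + ‖b' - pl (R γ)‖ := by
                have : a' - b' = (a' - pl (R γ)) - (b' - pl (R γ)) := by ring
                rw [this]
                exact norm_sub_le _ _
              have h8 : ¬ (‖a' - pl (R γ)‖ * (δ * ‖R γ 1 0‖ ^ 2) ≤ 2) := fun h => h2 ⟨hγ, h⟩
              have h9 : ¬ (‖b' - pl (R γ)‖ * (δ * ‖R γ 1 0‖ ^ 2) ≤ 2) := fun h => h3 ⟨hγ, h⟩
              push Not at h8 h9
              have h10 : δ * (‖R γ 1 0‖ ^ 2 * ‖a' - pl (R γ)‖ * ‖b' - pl (R γ)‖) ≤ ‖a' - b'‖ := by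
                rw [← h6]
                exact mul_le_mul_of_nonneg_right h4 (by positivity)
              rcases le_total ‖a' - pl (R γ)‖ ‖b' - pl (R γ)‖ with h11 | h11
              · have := mul_lt_mul_of_pos_right h8 hB
                nlinarith
              · have := mul_lt_mul_of_pos_right h9 hA
                nlinarith
        _ = 1 + (Nd R δ a' + Nd R δ b') := by
            rw [ENNReal.tsum_add, ENNReal.tsum_add, tsum_ite_eq]
            rfl
        _ ≤ 1 + ((m : ℝ≥0∞) + m) := by gcongr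
        _ = 2 * m + 1 := by ring
    · push Not at hex
      have : ∀ γ : Γ, (if (mob (R γ) a, mob (R γ) b) ∈ Bs then (1 : ℝ≥0∞) else 0) = 0 :=
        fun γ => if_neg (hex γ)
      simp only [this, tsum_zero]
      exact bot_le
  -- unfolding
  have hstep : ∀ γ, ∀ a ∈ G '' F,
      (∫⁻ b in G '' D, Bs.indicator (fun x : ℂ × ℂ => ENNReal.ofReal (‖dKern Φ x.1 x.2‖ ^ 2))
        (mob (R γ) a, b)) * ENNReal.ofReal (‖den (R γ) a‖⁻¹ ^ 4) =
      ∫⁻ b in G '' D, (if (mob (R γ) a, mob (R γ) b) ∈ Bs then (1 : ℝ≥0∞) else 0) *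
        ENNReal.ofReal (‖dKern Φ a b‖ ^ 2) := by
    intro γ a ha
    have haD := hGF ha
    have himg : mob (R γ) '' (G '' D) = G '' D := by
      apply Subset.antisymm
      · rintro _ ⟨x, hx, rfl⟩
        exact (hI1 γ x hx).2.1
      · intro x hx
        refine ⟨mob (R γ⁻¹) x, (hI1 γ⁻¹ x hx).2.1, ?_⟩
        have := (hI1 γ⁻¹ x hx).2.2
        rwa [inv_inv] at this
    have h1 := hI2 γ (G '' D) subset_rfl hΩm
      (fun b => Bs.indicator (fun x : ℂ × ℂ => ENNReal.ofReal (‖dKern Φ x.1 x.2‖ ^ 2))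
        (mob (R γ) a, b)) (hKm.comp (measurable_prodMk_left (x := mob (R γ) a)))
    rw [himg] at h1
    rw [← h1, ← lintegral_mul_const]
    · refine setLIntegral_congr_fun hΩm fun b hb => ?_
      by_cases hB : (mob (R γ) a, mob (R γ) b) ∈ Bs
      · rw [indicator_of_mem hB, if_pos hB, one_mul, ← hkinv γ a haD b hb]
        ring
      · rw [indicator_of_notMem hB, if_neg hB]
        ring
    · refine Measurable.mul ?_ ?_
      · exact hKm.comp (measurable_const.prodMk (mob_measurable _))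
      · exact (((den_measurable (R γ)).norm.inv).pow_const 4).ennreal_ofReal
  have hgm : Measurable fun a => ∫⁻ b in G '' D,
      Bs.indicator (fun x : ℂ × ℂ => ENNReal.ofReal (‖dKern Φ x.1 x.2‖ ^ 2)) (a, b) :=
    hKm.lintegral_prod_right'
  have hfm : ∀ γ : Γ, Measurable fun x : ℂ × ℂ =>
      (if (mob (R γ) x.1, mob (R γ) x.2) ∈ Bs then (1 : ℝ≥0∞) else 0) *
        ENNReal.ofReal (‖dKern Φ x.1 x.2‖ ^ 2) := by
    intro γ
    refine Measurable.mul ?_ hkm
    refine Measurable.ite ?_ measurable_const measurable_const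
    exact (((mob_measurable (R γ)).comp measurable_fst).prodMk
      ((mob_measurable (R γ)).comp measurable_snd)) hBm
  rw [hI3 _ hgm]
  calc ∑' γ : Γ, ∫⁻ ξ in G '' F, (∫⁻ b in G '' D,
        Bs.indicator (fun x : ℂ × ℂ => ENNReal.ofReal (‖dKern Φ x.1 x.2‖ ^ 2))
          (mob (R γ) ξ, b)) * ENNReal.ofReal (‖den (R γ) ξ‖⁻¹ ^ 4)
      = ∑' γ : Γ, ∫⁻ a in G '' F, ∫⁻ b in G '' D,
        (if (mob (R γ) a, mob (R γ) b) ∈ Bs then (1 : ℝ≥0∞) else 0) *
          ENNReal.ofReal (‖dKern Φ a b‖ ^ 2) := by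
        refine tsum_congr fun γ => ?_
        exact setLIntegral_congr_fun hFm fun a ha => hstep γ a ha
    _ = ∫⁻ a in G '' F, ∑' γ : Γ, ∫⁻ b in G '' D,
        (if (mob (R γ) a, mob (R γ) b) ∈ Bs then (1 : ℝ≥0∞) else 0) *
          ENNReal.ofReal (‖dKern Φ a b‖ ^ 2) := by
        rw [lintegral_tsum]
        intro γ
        exact (hfm γ).lintegral_prod_right'.aemeasurable
    _ = ∫⁻ a in G '' F, ∫⁻ b in G '' D, ∑' γ : Γ,
        (if (mob (R γ) a, mob (R γ) b) ∈ Bs then (1 : ℝ≥0∞) else 0) *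
          ENNReal.ofReal (‖dKern Φ a b‖ ^ 2) := by
        refine lintegral_congr fun a => ?_
        rw [lintegral_tsum]
        intro γ
        exact ((hfm γ).comp (measurable_prodMk_left (x := a))).aemeasurable
    _ ≤ ∫⁻ a in G '' F, ∫⁻ b in G '' D, (2 * m + 1) * ENNReal.ofReal (‖dKern Φ a b‖ ^ 2) := by
        refine setLIntegral_mono' hFm fun a ha => ?_
        refine setLIntegral_mono' hΩm fun b hb => ?_
        rw [ENNReal.tsum_mul_right]
        exact mul_le_mul' (hcount a (hGF ha) b hb) le_rfl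
    _ = ∫⁻ a in G '' F, (2 * m + 1) * ∫⁻ b in G '' D, ENNReal.ofReal (‖dKern Φ a b‖ ^ 2) := by
        refine lintegral_congr fun a => ?_
        have h1 : Measurable fun b => ENNReal.ofReal (‖dKern Φ a b‖ ^ 2) :=
          Measurable.of_uncurry_left (f := fun a b => ENNReal.ofReal (‖dKern Φ a b‖ ^ 2)) hkm
        exact lintegral_const_mul _ h1
    _ = (2 * m + 1) * ∫⁻ a in G '' F, ∫⁻ b in G '' D, ENNReal.ofReal (‖dKern Φ a b‖ ^ 2) := by
        have h2 : Measurable fun a => ∫⁻ b in G '' D, ENNReal.ofReal (‖dKern Φ a b‖ ^ 2) :=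
          hkm.lintegral_prod_right'
        exact lintegral_const_mul _ h2

end Pool.Agent.Helper34.QE
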